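import Mathlib

open Set Filter Topology

namespace Pool.Agent.MP_4e92f2_gt

/-- The three points `-∞`, `0`, `+∞` of the extended real line. -/
def threePoints : Set EReal := {⊥, 0, ⊤}

/-- The equivalence relation on `[-∞, +∞]` which identifies the three points `-∞`, `0`, `+∞`
and nothing else. -/
def collapse : Setoid EReal where
  r x y := x = y ∨ (x ∈ threePoints ∧ y ∈ threePoints)
  iseqv :=
    { refl := fun _ => Or.inl rfl
      symm := by
        rintro x y (h | ⟨hx, hy⟩)
        · exact Or.inl h.symm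
        · exact Or.inr ⟨hy, hx⟩
      trans := by
        rintro x y z (h | ⟨hx, hy⟩) (h' | ⟨hy', hz⟩)
        · exact Or.inl (h.trans h')
        · exact Or.inr ⟨h ▸ hy', hz⟩
        · exact Or.inr ⟨hx, h' ▸ hy⟩
        · exact Or.inr ⟨hx, hz⟩ }

/-- The set `X₀ = [-∞, +∞] / {-∞, 0, +∞}`. -/
def X0 : Type := Quotient collapse

/-- The projection `q : [-∞, +∞] → X₀`. -/
def q : EReal → X0 := Quotient.mk collapse

/-- The collapsed point `∗` of `X₀`. -/
noncomputable def star : X0 := q 0

/-- The topology `τ` on `X₀`: `U` is open iff `q ⁻¹ U` is open in `[-∞, +∞]` and, whenever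
`∗ ∈ U`, the set `q ⁻¹ U` is also dense in `[-∞, +∞]`. -/
@[instance_reducible]
def tau : TopologicalSpace X0 where
  IsOpen U := IsOpen (q ⁻¹' U) ∧ (star ∈ U → Dense (q ⁻¹' U))
  isOpen_univ := by simp
  isOpen_inter U V hU hV :=
    ⟨hU.1.inter hV.1, fun h => (hU.2 h.1).inter_of_isOpen_left (hV.2 h.2) hU.1⟩
  isOpen_sUnion S hS := by
    refine ⟨?_, ?_⟩
    · rw [preimage_sUnion]
      exact isOpen_biUnion fun U hU => (hS U hU).1
    · rintro ⟨U, hU, hsU⟩
      exact ((hS U hU).2 hsU).mono (preimage_mono (subset_sUnion_of_mem hU))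

/-- A topology is US when every convergent sequence has exactly one limit. -/
def IsUS {X : Type*} (t : TopologicalSpace X) : Prop :=
  ∀ (u : ℕ → X) (a b : X), Tendsto u atTop (@nhds X t a) → Tendsto u atTop (@nhds X t b) → a = b

end Pool.Agent.MP_4e92f2_gt
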