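import Pool.Agent.Lib.MP_4e92f2_gt.Defs

open Set Filter Topology

namespace Pool.Agent.MP_4e92f2_gt

/-- The auxiliary topology: `U` is open iff `q ⁻¹ U` is open and, if `∗ ∈ U`, the complement
of `q ⁻¹ U` is countable. -/
@[instance_reducible]
def coarser : TopologicalSpace X0 where
  IsOpen U := IsOpen (q ⁻¹' U) ∧ (star ∈ U → (q ⁻¹' U)ᶜ.Countable)
  isOpen_univ := by simp
  isOpen_inter U V hU hV := by
    refine ⟨hU.1.inter hV.1, fun h => ?_⟩
    rw [preimage_inter, compl_inter]
    exact (hU.2 h.1).union (hV.2 h.2)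
  isOpen_sUnion S hS := by
    refine ⟨?_, ?_⟩
    · rw [preimage_sUnion]
      exact isOpen_biUnion fun U hU => (hS U hU).1
    · rintro ⟨U, hU, hsU⟩
      exact ((hS U hU).2 hsU).mono
        (compl_subset_compl.mpr (preimage_mono (subset_sUnion_of_mem hU)))

theorem isOpen_coarser_iff {U : Set X0} :
    IsOpen[coarser] U ↔ IsOpen (q ⁻¹' U) ∧ (star ∈ U → (q ⁻¹' U)ᶜ.Countable) := Iff.rfl

theorem isOpen_tau_iff {U : Set X0} :
    IsOpen[tau] U ↔ IsOpen (q ⁻¹' U) ∧ (star ∈ U → Dense (q ⁻¹' U)) := Iff.rfl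

theorem q_eq_iff {x y : EReal} : q x = q y ↔ x = y ∨ (x ∈ threePoints ∧ y ∈ threePoints) :=
  Quotient.eq (r := collapse)

theorem q_surj : Function.Surjective q := Quotient.mk_surjective

theorem finite_threePoints : threePoints.Finite := by
  unfold threePoints
  exact (((finite_singleton _).insert _).insert _)

theorem preimage_image_q (K : Set EReal) :
    q ⁻¹' (q '' K) = K ∪ {x | x ∈ threePoints ∧ (K ∩ threePoints).Nonempty} := by
  ext x
  constructor
  · rintro ⟨y, hy, hxy⟩
    rcases q_eq_iff.1 hxy with h | ⟨h1, h2⟩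
    · exact Or.inl (h ▸ hy)
    · exact Or.inr ⟨h2, y, hy, h1⟩
  · rintro (h | ⟨h1, y, hy, hy'⟩)
    · exact ⟨x, h, rfl⟩
    · exact ⟨y, hy, q_eq_iff.2 (Or.inr ⟨hy', h1⟩)⟩

theorem isClosed_preimage_image_q {K : Set EReal} (hK : IsClosed K) :
    IsClosed (q ⁻¹' (q '' K)) := by
  rw [preimage_image_q]
  refine hK.union (Set.Finite.isClosed (finite_threePoints.subset ?_))
  intro x hx
  exact hx.1

theorem countable_preimage_image_q {K : Set EReal} (hK : K.Countable) :
    (q ⁻¹' (q '' K)).Countable := by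
  rw [preimage_image_q]
  refine hK.union (Set.Finite.countable (finite_threePoints.subset ?_))
  intro x hx
  exact hx.1

/-- The image of a closed countable set is closed in the auxiliary topology. -/
theorem isOpen_compl_image {K : Set EReal} (hK : IsClosed K) (hc : K.Countable) :
    IsOpen[coarser] (q '' K)ᶜ := by
  rw [isOpen_coarser_iff, preimage_compl, compl_compl]
  exact ⟨(isClosed_preimage_image_q hK).isOpen_compl, fun _ => countable_preimage_image_q hc⟩

theorem dense_of_countable_compl {S : Set EReal} (hS : Sᶜ.Countable) : Dense S := by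
  have h1 : ((fun x : ℝ => (x : EReal)) ⁻¹' Sᶜ).Countable :=
    hS.preimage EReal.coe_injective
  have h2 : Dense ((fun x : ℝ => (x : EReal)) ⁻¹' Sᶜ)ᶜ := h1.dense_compl ℝ
  have h3 : DenseRange (fun x : ℝ => (x : EReal)) :=
    EReal.denseRange_ratCast.mono (by rintro _ ⟨r, rfl⟩; exact ⟨(r : ℝ), rfl⟩)
  have h4 := h3.dense_image continuous_coe_real_ereal h2
  refine h4.mono ?_
  rintro _ ⟨x, hx, rfl⟩
  simpa using hx

theorem coarser_sub_tau (U : Set X0) (hU : IsOpen[coarser] U) : IsOpen[tau] U :=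
  ⟨hU.1, fun h => dense_of_countable_compl (hU.2 h)⟩

theorem coarser_t1 : @T1Space X0 coarser := by
  let _ := coarser
  refine ⟨fun p => ?_⟩
  obtain ⟨x, rfl⟩ := q_surj p
  have h := isOpen_compl_image (K := {x}) isClosed_singleton (countable_singleton x)
  rw [image_singleton] at h
  exact ⟨h⟩

/-- Key point: a sequence whose lift converges to `c` in `[-∞, +∞]` converges, in the auxiliary
topology, to no point other than `q c`. -/
theorem unique_limit {x : ℕ → EReal} {c : EReal} (hx : Tendsto x atTop (𝓝 c)) {b : X0}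
    (hb : Tendsto (fun n => q (x n)) atTop (@nhds X0 coarser b)) : b = q c := by
  let _ := coarser
  by_contra hne
  -- eventually `q (x n) ≠ b`
  have hclosed : IsClosed (q ⁻¹' {b}) := by
    obtain ⟨y, rfl⟩ := q_surj b
    have := isClosed_preimage_image_q (K := {y}) isClosed_singleton
    rwa [image_singleton] at this
  have hev : ∀ᶠ n in atTop, q (x n) ≠ b := by
    have hmem : (q ⁻¹' {b})ᶜ ∈ 𝓝 c := by
      refine hclosed.isOpen_compl.mem_nhds ?_
      simpa [eq_comm] using hne
    exact hx hmem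
  obtain ⟨N, hN⟩ := eventually_atTop.1 hev
  -- the compact countable set consisting of the tail and its limit
  set K : Set EReal := insert c (range fun n => x (n + N)) with hKdef
  have hKc : IsCompact K := (hx.comp (tendsto_add_atTop_nat N)).isCompact_insert_range
  have hKcount : K.Countable := (countable_range _).insert _
  have hopen := isOpen_compl_image hKc.isClosed hKcount
  have hbK : b ∈ (q '' K)ᶜ := by
    rintro ⟨y, hy, hyb⟩
    rcases hy with rfl | ⟨n, rfl⟩
    · exact hne hyb.symm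
    · exact hN (n + N) (Nat.le_add_left _ _) hyb
  have hnb : (q '' K)ᶜ ∈ @nhds X0 coarser b := IsOpen.mem_nhds hopen hbK
  obtain ⟨M, hM⟩ := eventually_atTop.1 (hb hnb)
  exact hM (M + N) (Nat.le_add_right _ _) ⟨x (M + N), Or.inr ⟨M, rfl⟩, rfl⟩

theorem coarser_us : IsUS coarser := by
  intro u a b ha hb
  choose x hx using fun n => q_surj (u n)
  obtain ⟨c, -, φ, hφ, hc⟩ := isCompact_univ.tendsto_subseq (x := x) (fun _ => mem_univ _)
  have hu : u = fun n => q (x n) := by
    funext n
    exact (hx n).symm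
  subst hu
  have h1 : a = q c := unique_limit hc (ha.comp hφ.tendsto_atTop)
  have h2 : b = q c := unique_limit hc (hb.comp hφ.tendsto_atTop)
  rw [h1, h2]

/-- A compact uncountable set of irrational numbers. -/
theorem exists_compact_irrational :
    ∃ K : Set ℝ, IsCompact K ∧ ¬ K.Countable ∧ ∀ r : ℚ, (r : ℝ) ∉ K := by
  have h0 : MeasureTheory.volume (range ((↑) : ℚ → ℝ)) < 1 := by
    rw [(countable_range _).measure_zero]
    exact zero_lt_one
  obtain ⟨U, hU, hUo, hUm⟩ := (range ((↑) : ℚ → ℝ)).exists_isOpen_lt_of_lt 1 h0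
  refine ⟨Icc 0 1 \ U, isCompact_Icc.diff hUo, fun hc => ?_, fun r hr => hr.2 (hU ⟨r, rfl⟩)⟩
  have h1 := MeasureTheory.le_measure_sdiff (μ := MeasureTheory.volume)
    (s₁ := Icc (0 : ℝ) 1) (s₂ := U)
  rw [hc.measure_zero, Real.volume_Icc] at h1
  simp only [sub_zero, ENNReal.ofReal_one, nonpos_iff_eq_zero, tsub_eq_zero_iff_le] at h1
  exact absurd hUm (not_lt.2 h1)

theorem coarser_ne_tau : coarser ≠ tau := by
  intro heq
  obtain ⟨K, hK, hunc, hrat⟩ := exists_compact_irrational
  set L : Set EReal := (fun x : ℝ => (x : EReal)) '' K with hL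
  have hLc : IsCompact L := hK.image continuous_coe_real_ereal
  have hdisj : ¬ (L ∩ threePoints).Nonempty := by
    rintro ⟨y, ⟨x, hx, rfl⟩, hy⟩
    rcases hy with h | h | h
    · exact EReal.coe_ne_bot x h
    · have h' : x = 0 := EReal.coe_eq_zero.1 h
      exact hrat 0 (by rw [h'] at hx; simpa using hx)
    · exact EReal.coe_ne_top x h
  have hpre : q ⁻¹' (q '' L) = L := by
    rw [preimage_image_q]
    ext y
    constructor
    · rintro (h | ⟨-, h⟩)
      · exact h
      · exact absurd h hdisj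
    · exact Or.inl
  have hstar : star ∈ (q '' L)ᶜ := by
    rintro ⟨y, hy, hyz⟩
    rcases q_eq_iff.1 hyz with h | ⟨h, -⟩
    · exact hdisj ⟨y, hy, by rw [h]; simp [threePoints]⟩
    · exact hdisj ⟨y, hy, h⟩
  have htau : IsOpen[tau] (q '' L)ᶜ := by
    rw [isOpen_tau_iff, preimage_compl, hpre]
    refine ⟨hLc.isClosed.isOpen_compl, fun _ => ?_⟩
    refine EReal.denseRange_ratCast.mono ?_
    rintro _ ⟨r, rfl⟩ ⟨x, hx, hxr⟩
    have hxr' : x = (r : ℝ) := EReal.coe_injective hxr
    exact hrat r (hxr' ▸ hx)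
  rw [← heq] at htau
  have hc := htau.2 hstar
  rw [preimage_compl, compl_compl, hpre, hL] at hc
  exact hunc (countable_of_injective_of_countable_image EReal.coe_injective.injOn hc)

end Pool.Agent.MP_4e92f2_gt
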